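import Pool.Agent.Helper593.Fac15

open MeasureTheory Set Filter
open scoped ENNReal NNReal Topology Interval

namespace Pool.Agent.Results.MP_8e7914_an.NoFactorization

/-! ## The space `L²(0, ω)`, bounded operators on it, and the projections `P_ξ` -/

/-- Lebesgue measure on `(0, ω]`. -/
noncomputable abbrev leb (ω : ℝ) : Measure ℝ := volume.restrict (Ioc 0 ω)

/-- Complex `L²(0, ω)`, a Hilbert space with the structure of Mathlib's `Lp ℂ 2`. -/
def H (ω : ℝ) : Type := Lp ℂ 2 (leb ω)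

noncomputable instance instNormedH (ω : ℝ) : NormedAddCommGroup (H ω) :=
  @Lp.instNormedAddCommGroup ℝ ℂ _ 2 (leb ω) _ _

noncomputable instance instInnerH (ω : ℝ) : InnerProductSpace ℂ (H ω) :=
  @L2.innerProductSpace ℝ ℂ ℂ _ _ (leb ω) _ _

instance instCompleteH (ω : ℝ) : CompleteSpace (H ω) :=
  inferInstanceAs (CompleteSpace (Lp ℂ 2 (leb ω)))

/-- An element of `H ω` as an element of Mathlib's `Lp`. -/
def toLp2 {ω : ℝ} (f : H ω) : Lp ℂ 2 (leb ω) := f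

/-- The function (a representative of the class) given by an element of `L²(0, ω)`. -/
noncomputable def fn {ω : ℝ} (f : H ω) : ℝ → ℂ := toLp2 f

/-- Bounded operators on `L²(0, ω)`. -/
abbrev Op (ω : ℝ) : Type := H ω →L[ℂ] H ω

/-- `χ_{[0, ξ]} f` as an element of `L²(0, ω)`. -/
noncomputable def cut (ω ξ : ℝ) (f : H ω) : H ω :=
  ((Lp.memLp (toLp2 f)).indicator (measurableSet_Icc (a := 0) (b := ξ))).toLp _

lemma cut_add (ω ξ : ℝ) (f g : H ω) : cut ω ξ (f + g) = cut ω ξ f + cut ω ξ g :=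
  projFun_add ω ξ f g

lemma cut_smul (ω ξ : ℝ) (c : ℂ) (f : H ω) : cut ω ξ (c • f) = c • cut ω ξ f :=
  projFun_smul ω ξ c f

lemma cut_bound (ω ξ : ℝ) (f : H ω) : ‖cut ω ξ f‖ ≤ 1 * ‖f‖ := by
  rw [one_mul]
  exact norm_projFun_le ω ξ f

/-- The projection `P_ξ f = χ_{[0, ξ]} f`. -/
noncomputable def P (ω ξ : ℝ) : Op ω :=
  LinearMap.mkContinuous
    { toFun := cut ω ξ
      map_add' := cut_add ω ξ
      map_smul' := cut_smul ω ξ } 1 (cut_bound ω ξ)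

/-! ## The notions of the problem -/

/-- `T` is upper triangular: `T P_ξ = P_ξ T P_ξ` for every `ξ ∈ [0, ω]`. -/
def UpperTriangular {ω : ℝ} (T : Op ω) : Prop :=
  ∀ ξ ∈ Icc 0 ω, ∀ f : H ω, T (P ω ξ f) = P ω ξ (T (P ω ξ f))

/-- `T` is lower triangular: its adjoint `T'` is upper triangular. -/
def LowerTriangular {ω : ℝ} (T : Op ω) : Prop :=
  ∃ T' : Op ω, (∀ f g : H ω, inner ℂ (T f) g = inner ℂ f (T' g)) ∧ UpperTriangular T'

/-- `R` is the (bounded, two-sided) inverse of `S`. -/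
def IsInverse {ω : ℝ} (S R : Op ω) : Prop := ∀ f : H ω, S (R f) = f ∧ R (S f) = f

/-- `S = S₋ S₊` with `S₊, S₊⁻¹` bounded and upper triangular and `S₋, S₋⁻¹` bounded and lower
triangular (`Rm`, `Rp` are the inverses of `Sm`, `Sp`). -/
def HasLeftFactorization {ω : ℝ} (S : Op ω) : Prop :=
  ∃ Sm Rm Sp Rp : Op ω, IsInverse Sm Rm ∧ IsInverse Sp Rp ∧
    LowerTriangular Sm ∧ LowerTriangular Rm ∧ UpperTriangular Sp ∧ UpperTriangular Rp ∧
    ∀ f : H ω, S f = Sm (Sp f)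

/-- `S` is the convolution-type operator `(S f)(x) = d/dx ∫_0^ω s(x - t) f(t) dt`: for every
`f ∈ L²(0, ω)` the integral exists for every `x ∈ [0, ω]`, is an absolutely continuous function of
`x ∈ [0, ω]`, and has derivative `(S f)(x)` for almost every `x ∈ (0, ω)`. -/
def IsConvolutionType {ω : ℝ} (s : ℝ → ℂ) (S : Op ω) : Prop :=
  ∀ f : H ω, (∀ x ∈ Icc 0 ω, Integrable (fun t => s (x - t) * fn f t) (leb ω)) ∧
    AbsolutelyContinuousOnInterval (fun x => ∫ t, s (x - t) * fn f t ∂(leb ω)) 0 ω ∧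
    ∀ᵐ x ∂(leb ω), HasDerivAt (fun x => ∫ t, s (x - t) * fn f t ∂(leb ω)) (fn (S f) x) x

/-- `S_ξ f = P_ξ S P_ξ f`. -/
noncomputable def compression {ω : ℝ} (S : Op ω) (ξ : ℝ) (f : H ω) : H ω :=
  P ω ξ (S (P ω ξ f))

/-- `R` is the inverse of `S_ξ = P_ξ S P_ξ` on `L²(0, ξ)`, the range of `P_ξ`, extended by zero to
the kernel of `P_ξ`: `R = P_ξ R P_ξ`, `S_ξ R = P_ξ` and `R S_ξ = P_ξ`. -/
def IsInverseAt {ω : ℝ} (S : Op ω) (ξ : ℝ) (R : Op ω) : Prop :=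
  ∀ f : H ω, R f = compression R ξ f ∧ compression S ξ (R f) = P ω ξ f ∧
    R (compression S ξ f) = P ω ξ f

/-- The matrix `B(ξ)`, where `R ξ = S_ξ⁻¹`, `u_ξ = R ξ M`, `v_ξ = R ξ 1` (`E` is the constant
function `1` as an element of `L²(0, ω)`). -/
noncomputable def Bmat {ω : ℝ} (R : ℝ → Op ω) (M N E : H ω) (ξ : ℝ) :
    Matrix (Fin 2) (Fin 2) ℂ :=
  !![∫ x in (0:ℝ)..ξ, fn (R ξ M) x, ∫ x in (0:ℝ)..ξ, fn (R ξ M) x * fn N x;
     ∫ x in (0:ℝ)..ξ, fn (R ξ E) x, ∫ x in (0:ℝ)..ξ, fn (R ξ E) x * fn N x]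

/-- Condition (***) for the convolution-type operator `S` with kernel `s`: the functions
`M(x) = s(x)` and `N(x) = -s(-x)` lie in `L²(0, ω)`, each `S_ξ` (`0 ≤ ξ ≤ ω`) is invertible on
`L²(0, ξ)`, the matrix function `B` is absolutely continuous on `[0, ω]`, and its derivative exists
and has rank exactly `1` almost everywhere on `(0, ω)`. -/
def ConditionThree {ω : ℝ} (s : ℝ → ℂ) (S : Op ω) : Prop :=
  ∃ (M N E : H ω) (R : ℝ → Op ω),
    (∀ᵐ x ∂(leb ω), fn M x = s x) ∧ (∀ᵐ x ∂(leb ω), fn N x = - s (-x)) ∧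
    (∀ᵐ x ∂(leb ω), fn E x = 1) ∧
    (∀ ξ ∈ Icc 0 ω, IsInverseAt S ξ (R ξ)) ∧
    (∀ i j, AbsolutelyContinuousOnInterval (fun ξ => Bmat R M N E ξ i j) 0 ω) ∧
    ∀ᵐ x ∂(leb ω), ∃ B' : Matrix (Fin 2) (Fin 2) ℂ,
      (∀ i j, HasDerivAt (fun ξ => Bmat R M N E ξ i j) (B' i j) x) ∧ B'.rank = 1

/-- **A bounded convolution-type operator which satisfies (\*\*\*) but has no left factorization.**
For every `ω > 0` there are a kernel `s` and a bounded operator `S` on `L²(0, ω)` with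
`(S f)(x) = d/dx ∫_0^ω s(x - t) f(t) dt` such that condition (\*\*\*) holds, but `S` does not admit
a left factorization. -/
theorem result (ω : ℝ) (hω : 0 < ω) : ∃ (s : ℝ → ℂ) (S : Op ω),
    IsConvolutionType s S ∧ ConditionThree s S ∧ ¬ HasLeftFactorization S := by
  obtain ⟨s, S, h1, ⟨M, N, E, R, a1, a2, a3, a4, a5, a6⟩, h3⟩ := main_L2 ω hω
  refine ⟨s, S, h1, ⟨M, N, E, R, a1, a2, a3, fun ξ hξ f => ?_, a5, a6⟩, ?_⟩
  · obtain ⟨b1, b2, b3⟩ := a4 ξ hξ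
    exact ⟨congrArg (fun Z : L2 ω →L[ℂ] L2 ω => Z f) b1,
      congrArg (fun Z : L2 ω →L[ℂ] L2 ω => Z f) b2, congrArg (fun Z : L2 ω →L[ℂ] L2 ω => Z f) b3⟩
  · have hup : ∀ T : Op ω, UpperTriangular T → UpperTriL (ω := ω) T := by
      intro T hT ξ hξ
      exact ContinuousLinearMap.ext fun f => hT ξ hξ f
    have hlow : ∀ T : Op ω, LowerTriangular T → LowerTriL (ω := ω) T := by
      rintro T ⟨T', hT', hup'⟩
      exact lowerTriL_of (ω := ω) T T' hT' (hup T' hup')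
    rintro ⟨Sm, Rm, Sp, Rp, hm, hp, h4, h5, h6, h7, h8⟩
    exact h3 ⟨Sm, Rm, Sp, Rp, ContinuousLinearMap.ext fun f => (hm f).1,
      ContinuousLinearMap.ext fun f => (hm f).2, ContinuousLinearMap.ext fun f => (hp f).1,
      ContinuousLinearMap.ext fun f => (hp f).2, hlow Sm h4, hlow Rm h5, hup Sp h6, hup Rp h7,
      ContinuousLinearMap.ext fun f => h8 f⟩

end Pool.Agent.Results.MP_8e7914_an.NoFactorization
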